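import Pool.Agent.H29.DW.Targets

/-!
# Auxiliary facts for the local averages
-/

set_option autoImplicit false

open MeasureTheory Set Filter Complex
open scoped ENNReal

namespace Pool.Agent.H21.DW

open Pool.Agent.H29.DW

theorem norm_aq (r : Bool) (θ : ℝ) : ‖aq r θ‖ = 1 := by
  unfold aq
  split_ifs <;> simp [Complex.norm_exp]

theorem norm_chp (c w : ℂ) : ‖chp c w‖ = 1 := by
  unfold chp
  rw [Complex.norm_exp]
  simp

theorem norm_tw1 (c : ℂ) (H : ℝ) (p : ℂ → ℂ) (w : ℂ) : ‖tw1 c H p w‖ = ‖p (H * (w - 1))‖ := by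
  unfold tw1
  rw [norm_mul, norm_chp, one_mul]

/-- A set of real numbers of small diameter. -/
theorem vol_le (S : Set ℝ) (d : ℝ) (h : ∀ x ∈ S, ∀ y ∈ S, |x - y| ≤ d) :
    volume S ≤ ENNReal.ofReal d := by
  refine (Real.volume_le_diam S).trans ?_
  refine Metric.ediam_le fun x hx y hy => ?_
  rw [edist_dist, Real.dist_eq]
  exact ENNReal.ofReal_le_ofReal (h x hx y hy)

/-- The angles for which `ρ exp(i θ) u` is near a point. -/
theorem vol_angle (ρ δ : ℝ) (v z : ℂ) (hρ : 15 / 16 ≤ ρ) (hδ : 0 ≤ δ) (hv : ‖v‖ = ρ) :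
    volume ({θ : ℝ | ‖v * cexp (θ * I) - z‖ ≤ δ} ∩ Icc 0 (2 * Real.pi)) ≤
      ENNReal.ofReal (8 * δ) := by
  have hpi := Real.pi_pos
  have key : ∀ x y : ℝ, ‖v * cexp (x * I) - z‖ ≤ δ → ‖v * cexp (y * I) - z‖ ≤ δ →
      |x - y| ≤ Real.pi → |x - y| ≤ 4 * δ := by
    intro x y hx hy hxy
    have h1 : ‖v * cexp (x * I) - v * cexp (y * I)‖ ≤ 2 * δ := by
      calc ‖v * cexp (x * I) - v * cexp (y * I)‖ =
          ‖(v * cexp (x * I) - z) - (v * cexp (y * I) - z)‖ := by congr 1; ring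
        _ ≤ _ := (norm_sub_le _ _).trans (by linarith)
    have h2 : ‖v * cexp (x * I) - v * cexp (y * I)‖ = ρ * ‖cexp ((x - y : ℝ) * I) - 1‖ := by
      have : v * cexp (x * I) - v * cexp (y * I) =
          v * cexp (y * I) * (cexp ((x - y : ℝ) * I) - 1) := by
        rw [mul_sub, mul_assoc, ← Complex.exp_add]
        push_cast
        ring_nf
      rw [this, norm_mul, norm_mul, hv, Complex.norm_exp_ofReal_mul_I, mul_one]
    have h3 : ‖cexp ((x - y : ℝ) * I) - 1‖ = 2 * |Real.sin ((x - y) / 2)| := by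
      have := Complex.norm_exp_I_mul_ofReal_sub_one (x - y)
      rw [mul_comm I] at this
      rw [this, Real.norm_eq_abs, abs_mul]
      norm_num
    have h4 : |x - y| / Real.pi ≤ |Real.sin ((x - y) / 2)| := by
      have h5 : 2 / Real.pi * |(x - y) / 2| ≤ |Real.sin ((x - y) / 2)| := by
        apply Real.mul_abs_le_abs_sin
        rw [abs_div, abs_two]
        linarith
      refine le_trans (le_of_eq ?_) h5
      rw [abs_div, abs_two]
      field_simp
    have h6 : ρ * (2 * |Real.sin ((x - y) / 2)|) ≤ 2 * δ := by rw [← h3, ← h2]; exact h1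
    have h7 : |Real.sin ((x - y) / 2)| ≤ 16 / 15 * δ := by
      have := abs_nonneg (Real.sin ((x - y) / 2))
      nlinarith
    have h8 : |x - y| ≤ Real.pi * (16 / 15 * δ) := by
      have h9 : |x - y| / Real.pi ≤ 16 / 15 * δ := h4.trans h7
      rwa [div_le_iff₀ hpi, mul_comm] at h9
    have h10 : Real.pi ≤ 3.15 := Real.pi_lt_d2.le
    nlinarith
  have hsub : {θ : ℝ | ‖v * cexp (θ * I) - z‖ ≤ δ} ∩ Icc 0 (2 * Real.pi) ⊆
      ({θ : ℝ | ‖v * cexp (θ * I) - z‖ ≤ δ} ∩ Icc 0 Real.pi) ∪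
      ({θ : ℝ | ‖v * cexp (θ * I) - z‖ ≤ δ} ∩ Icc Real.pi (2 * Real.pi)) := by
    rintro θ ⟨h1, h2, h3⟩
    rcases le_total θ Real.pi with h | h
    · exact Or.inl ⟨h1, h2, h⟩
    · exact Or.inr ⟨h1, h, h3⟩
  refine (measure_mono hsub).trans ((measure_union_le _ _).trans ?_)
  have e : ENNReal.ofReal (8 * δ) = ENNReal.ofReal (4 * δ) + ENNReal.ofReal (4 * δ) := by
    rw [← ENNReal.ofReal_add (by positivity) (by positivity)]
    congr 1; ring
  rw [e]
  refine add_le_add (vol_le _ _ ?_) (vol_le _ _ ?_)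
  · rintro x ⟨hx, hx1, hx2⟩ y ⟨hy, hy1, hy2⟩
    exact key x y hx hy (by rw [abs_le]; constructor <;> linarith)
  · rintro x ⟨hx, hx1, hx2⟩ y ⟨hy, hy1, hy2⟩
    exact key x y hx hy (by rw [abs_le]; constructor <;> linarith)

end Pool.Agent.H21.DW
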