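import Pool.Agent.H21.DW.Lay

/-!
# The average of the ambiguity function (row LA)
-/

set_option autoImplicit false

open MeasureTheory Set Filter Complex
open scoped ENNReal

namespace Pool.Agent.H21.DW

open Pool.Agent.H29.DW

theorem exp_half_le : Real.exp (1 / 2) ≤ 1.65 := by
  have h1 : Real.exp (1 / 2 : ℝ) * Real.exp (1 / 2 : ℝ) = Real.exp 1 := by
    rw [← Real.exp_add]; norm_num
  have h2 := Real.exp_one_lt_d9
  have h3 := Real.exp_pos (1 / 2 : ℝ)
  nlinarith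

theorem le_exp_neg_half : 0.6 ≤ Real.exp (-(1 / 2)) := by
  have h1 : Real.exp (-(1 / 2) : ℝ) * Real.exp (1 / 2 : ℝ) = 1 := by
    rw [← Real.exp_add]; norm_num
  have h2 := exp_half_le
  have h3 := Real.exp_pos (-(1 / 2) : ℝ)
  nlinarith

/-- The frequency after the chirp. -/
theorem freq (r : Bool) (ξ q : ℂ) (b θ : ℝ) (hb : |b| ≤ 1) :
    0.6 * ‖ξ - q * (((Real.exp b : ℝ) : ℂ) * aq r θ ^ 2)‖ ≤
      ‖ξ * ((Real.exp (-b / 2) : ℝ) : ℂ) * (starRingEnd ℂ) (aq r θ) -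
        q * (((Real.exp (b / 2) : ℝ) : ℂ) * aq r θ)‖ := by
  have hn := norm_aq r θ
  have hcc : aq r θ * (starRingEnd ℂ) (aq r θ) = 1 := by
    rw [Complex.mul_conj, Complex.normSq_eq_norm_sq, hn]
    norm_num
  have he : ((Real.exp (b / 2) : ℝ) : ℂ) * ((Real.exp (-b / 2) : ℝ) : ℂ) = 1 := by
    rw [← Complex.ofReal_mul, ← Real.exp_add]
    norm_num
    ring_nf
    simp
  have he2 : ((Real.exp b : ℝ) : ℂ) = ((Real.exp (b / 2) : ℝ) : ℂ) * ((Real.exp (b / 2) : ℝ) : ℂ) := by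
    rw [← Complex.ofReal_mul, ← Real.exp_add]
    norm_num
  have e : ξ * ((Real.exp (-b / 2) : ℝ) : ℂ) * (starRingEnd ℂ) (aq r θ) -
        q * (((Real.exp (b / 2) : ℝ) : ℂ) * aq r θ) =
      ((Real.exp (-b / 2) : ℝ) : ℂ) * (starRingEnd ℂ) (aq r θ) *
        (ξ - q * (((Real.exp b : ℝ) : ℂ) * aq r θ ^ 2)) := by
    rw [he2]
    linear_combination (q * ((Real.exp (b / 2) : ℝ) : ℂ) * aq r θ *
      (aq r θ * (starRingEnd ℂ) (aq r θ))) * he + (q * ((Real.exp (b / 2) : ℝ) : ℂ) * aq r θ) * hcc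
  rw [e, norm_mul, norm_mul, Complex.norm_real, Complex.norm_conj, hn, mul_one,
    Real.norm_of_nonneg (Real.exp_pos _).le]
  refine mul_le_mul_of_nonneg_right ?_ (norm_nonneg _)
  refine le_exp_neg_half.trans (Real.exp_le_exp.mpr ?_)
  rw [abs_le] at hb
  linarith [hb.2]

/-- The first bound. -/
theorem amb_le (r : Bool) (A : ℕ) (H : ℝ) (hH : 1 ≤ H) (c a ξ : ℂ) (b θ : ℝ) (hb : |b| ≤ 1) :
    amb r A c H (a * ((Real.exp (b / 2) : ℝ) : ℂ) * aq r θ)
        (ξ * ((Real.exp (-b / 2) : ℝ) : ℂ) * (starRingEnd ℂ) (aq r θ)) ≤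
      if H * ‖a‖ ≤ 1 / 2 then ((1 + 0.6 * ‖ξ - c * a / (2 * Real.pi * dg r) *
        (((Real.exp b : ℝ) : ℂ) * aq r θ ^ 2)‖ / H) ^ A)⁻¹ else 0 := by
  have hH0 : 0 < H := by linarith
  unfold amb
  split_ifs with h1 h2 h2
  · rw [Real.rpow_neg (by positivity), Real.rpow_natCast]
    apply inv_anti₀ (by positivity)
    apply pow_le_pow_left₀ (by positivity)
    have h3 := freq r ξ (c * a / (2 * Real.pi * dg r)) b θ hb
    have e : c * (a * ((Real.exp (b / 2) : ℝ) : ℂ) * aq r θ) / (2 * Real.pi * dg r) =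
        c * a / (2 * Real.pi * dg r) * (((Real.exp (b / 2) : ℝ) : ℂ) * aq r θ) := by ring
    rw [e]
    have := div_le_div_of_nonneg_right h3 hH0.le
    linarith
  · exfalso
    apply h2
    rw [norm_mul, norm_mul, norm_aq, mul_one, Complex.norm_real,
      Real.norm_of_nonneg (Real.exp_pos _).le] at h1
    have h3 : 0.6 ≤ Real.exp (b / 2) := by
      refine le_exp_neg_half.trans (Real.exp_le_exp.mpr ?_)
      rw [abs_le] at hb
      linarith [hb.1]
    have h4 : H * ‖a‖ * 0.6 ≤ 1 / 4 := by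
      refine le_trans ?_ h1
      rw [← mul_assoc]
      exact mul_le_mul_of_nonneg_left h3 (by positivity)
    linarith
  · positivity
  · exact le_rfl

/-- The pointwise bounds in the cases without averaging. -/
theorem case_A (A : ℕ) (x y s : ℝ) (hx : 0 ≤ x) (h : 1 / 16 * (1 + x) * s ≤ y) (hs : 0 < s) :
    (y ^ A)⁻¹ ≤ 16 ^ A * (s ^ A)⁻¹ * ((1 + x) ^ A)⁻¹ := by
  have h1 : (1 / 16 * (1 + x) * s) ^ A ≤ y ^ A := pow_le_pow_left₀ (by positivity) h A
  refine (inv_anti₀ (by positivity) h1).trans (le_of_eq ?_)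
  rw [mul_pow, mul_pow, mul_inv, mul_inv, one_div, inv_pow, inv_inv]
  ring

/-- Constants: everything is at most the term number `i`. -/
theorem case_B (r : Bool) (A n : ℕ) (hn : 0 < n) (hA : 3 ≤ A) (q ξ : ℂ) (H N : ℝ) (hH : 0 < H)
    (hN : 0 < N) (hq : N ≤ 0.6 * ‖q‖ / H) :
    ∫⁻ b in Icc (-(1 / (n : ℝ))) (1 / (n : ℝ)), ∫⁻ θ in Icc (0 : ℝ) (2 * Real.pi),
      ENNReal.ofReal (((1 + 0.6 * ‖ξ - q * (((Real.exp b : ℝ) : ℂ) * aq r θ ^ 2)‖ / H) ^ A)⁻¹) ≤
    ENNReal.ofReal (3000 * (N⁻¹) ^ dg r) := by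
  have hpi := Real.pi_pos
  have hpi2 : Real.pi ≤ 3.15 := Real.pi_lt_d2.le
  have hnn : (1 : ℝ) ≤ n := by exact_mod_cast hn
  have hn1 : 1 / (n : ℝ) ≤ 1 := by
    rw [div_le_one (by linarith)]; exact hnn
  have hq0 : 0 < ‖q‖ := by
    by_contra h
    push Not at h
    have : 0.6 * ‖q‖ / H ≤ 0 := div_nonpos_of_nonpos_of_nonneg (by linarith) hH.le
    linarith
  have hqne : q ≠ 0 := norm_pos_iff.mp hq0
  set s₀ : ℂ := ξ / q with hs₀
  set s : ℝ → ℝ → ℂ := fun b θ => ((Real.exp b : ℝ) : ℂ) * aq r θ ^ 2 with hs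
  have hsn : ∀ b θ, ‖s b θ‖ = Real.exp b := by
    intro b θ
    rw [hs]
    simp only
    rw [norm_mul, norm_pow, norm_aq, one_pow, mul_one, Complex.norm_real,
      Real.norm_of_nonneg (Real.exp_pos _).le]
  set f₁ : ℝ → ℝ := fun b => |Real.exp b - ‖s₀‖| with hf₁
  have h1 : ∀ b θ, f₁ b ≤ ‖s b θ - s₀‖ := by
    intro b θ
    have := abs_norm_sub_norm_le (s b θ) s₀
    rwa [hsn] at this
  have hbase : ∀ b θ, N * ‖s b θ - s₀‖ ≤
      0.6 * ‖ξ - q * (((Real.exp b : ℝ) : ℂ) * aq r θ ^ 2)‖ / H := by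
    intro b θ
    have e : ξ - q * (((Real.exp b : ℝ) : ℂ) * aq r θ ^ 2) = -q * (s b θ - s₀) := by
      rw [hs, hs₀]
      field_simp
      ring
    rw [e, norm_mul, norm_neg]
    calc N * ‖s b θ - s₀‖ ≤ 0.6 * ‖q‖ / H * ‖s b θ - s₀‖ :=
          mul_le_mul_of_nonneg_right hq (norm_nonneg _)
      _ = _ := by ring
  have h3half : ∀ x : ℝ, 0 ≤ x → (1 + x) ^ (3 / 2 : ℝ) * (1 + x) ^ (3 / 2 : ℝ) = (1 + x) ^ 3 := by
    intro x hx
    rw [← Real.rpow_add (by linarith)]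
    norm_num
  have hpow : ∀ x y z : ℝ, 0 ≤ x → x ≤ z → 0 ≤ y → y ≤ z →
      ((1 + z) ^ A)⁻¹ ≤ (1 + x) ^ (-(3 / 2) : ℝ) * (1 + y) ^ (-(3 / 2) : ℝ) := by
    intro x y z hx hxz hy hyz
    rw [Real.rpow_neg (by linarith), Real.rpow_neg (by linarith), ← mul_inv]
    apply inv_anti₀ (by positivity)
    calc (1 + x) ^ (3 / 2 : ℝ) * (1 + y) ^ (3 / 2 : ℝ) ≤
        (1 + z) ^ (3 / 2 : ℝ) * (1 + z) ^ (3 / 2 : ℝ) := by
          apply mul_le_mul
          · exact Real.rpow_le_rpow (by linarith) (by linarith) (by norm_num)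
          · exact Real.rpow_le_rpow (by linarith) (by linarith) (by norm_num)
          · positivity
          · exact Real.rpow_nonneg (by linarith) _
      _ = (1 + z) ^ 3 := h3half z (by linarith)
      _ ≤ (1 + z) ^ A := pow_le_pow_right₀ (by linarith) hA
  have hf₁0 : ∀ b, 0 ≤ f₁ b := fun b => abs_nonneg _
  have hI₁ : ∫⁻ b in Icc (-(1 / (n : ℝ))) (1 / (n : ℝ)),
      ENNReal.ofReal ((1 + N * f₁ b) ^ (-(3 / 2) : ℝ)) ≤ ENNReal.ofReal (3 * 6 / N) := by
    refine layer _ measurableSet_Icc f₁ ?_ hf₁0 6 N (by norm_num) hN ?_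
    · rw [hf₁]
      exact (by fun_prop : Continuous fun b : ℝ => |Real.exp b - ‖s₀‖|).measurable
    · intro ρ _
      exact vol_exp ‖s₀‖ ρ _ hn1
  have hNi : 0 < N⁻¹ := inv_pos.mpr hN
  cases r
  · set f₂ : ℝ → ℝ := fun θ => |Real.sin (2 * θ - Complex.arg s₀)| with hf₂
    have hf₂0 : ∀ θ, 0 ≤ f₂ θ := fun θ => abs_nonneg _
    have h2 : ∀ b θ, -1 ≤ b → 0.36 * f₂ θ ≤ ‖s b θ - s₀‖ := by
      intro b θ hb
      have e1 : (s b θ - s₀) * cexp (-(Complex.arg s₀ * I)) =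
          ((Real.exp b : ℝ) : ℂ) * cexp ((2 * θ - Complex.arg s₀ : ℝ) * I) - (‖s₀‖ : ℂ) := by
        have e2 : s₀ * cexp (-(Complex.arg s₀ * I)) = (‖s₀‖ : ℂ) := by
          have := Complex.norm_mul_exp_arg_mul_I s₀
          calc s₀ * cexp (-(Complex.arg s₀ * I)) =
              (‖s₀‖ * cexp (Complex.arg s₀ * I)) * cexp (-(Complex.arg s₀ * I)) := by rw [this]
            _ = ‖s₀‖ * (cexp (Complex.arg s₀ * I) * cexp (-(Complex.arg s₀ * I))) := by ring
            _ = _ := by rw [← Complex.exp_add]; simp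
        rw [sub_mul, e2]
        congr 1
        have e3 : aq false θ = cexp (θ * I) := by simp [aq]
        rw [hs]
        simp only [e3]
        rw [mul_assoc, ← Complex.exp_nat_mul, ← Complex.exp_add]
        congr 2
        push_cast
        ring
      have e4 : ‖s b θ - s₀‖ = ‖(s b θ - s₀) * cexp (-(Complex.arg s₀ * I))‖ := by
        have : cexp (-(Complex.arg s₀ * I)) = cexp ((-(Complex.arg s₀) : ℝ) * I) := by
          congr 1; push_cast; ring
        rw [norm_mul, this, Complex.norm_exp_ofReal_mul_I, mul_one]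
      rw [e4, e1]
      refine le_trans ?_ (Complex.abs_im_le_norm _)
      rw [Complex.sub_im, Complex.ofReal_im, sub_zero, Complex.im_ofReal_mul,
        Complex.exp_ofReal_mul_I_im, abs_mul, abs_of_pos (Real.exp_pos _)]
      refine mul_le_mul_of_nonneg_right ?_ (abs_nonneg _)
      have h5 := Real.exp_neg_one_gt_d9
      have h6 : Real.exp (-1) ≤ Real.exp b := Real.exp_le_exp.mpr hb
      linarith
    have hI₂ : ∫⁻ θ in Icc (0 : ℝ) (2 * Real.pi),
        ENNReal.ofReal ((1 + (0.36 * N) * f₂ θ) ^ (-(3 / 2) : ℝ)) ≤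
          ENNReal.ofReal (3 * 13 / (0.36 * N)) := by
      refine layer _ measurableSet_Icc f₂ ?_ hf₂0 13 (0.36 * N) (by norm_num) (by positivity) ?_
      · rw [hf₂]
        exact (by fun_prop : Continuous fun θ : ℝ => |Real.sin (2 * θ - Complex.arg s₀)|).measurable
      · intro ρ _
        exact vol_sin _ ρ
    have hle : ∫⁻ b in Icc (-(1 / (n : ℝ))) (1 / (n : ℝ)), ∫⁻ θ in Icc (0 : ℝ) (2 * Real.pi),
        ENNReal.ofReal (((1 + 0.6 * ‖ξ - q * (((Real.exp b : ℝ) : ℂ) * aq false θ ^ 2)‖ / H) ^ A)⁻¹)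
        ≤ ∫⁻ b in Icc (-(1 / (n : ℝ))) (1 / (n : ℝ)),
          ENNReal.ofReal ((1 + N * f₁ b) ^ (-(3 / 2) : ℝ)) * ENNReal.ofReal (3 * 13 / (0.36 * N)) := by
      refine setLIntegral_mono' measurableSet_Icc fun b hb => ?_
      have hb1 : -1 ≤ b := by linarith [hb.1]
      calc ∫⁻ θ in Icc (0 : ℝ) (2 * Real.pi), ENNReal.ofReal
            (((1 + 0.6 * ‖ξ - q * (((Real.exp b : ℝ) : ℂ) * aq false θ ^ 2)‖ / H) ^ A)⁻¹) ≤
          ∫⁻ θ in Icc (0 : ℝ) (2 * Real.pi), ENNReal.ofReal ((1 + N * f₁ b) ^ (-(3 / 2) : ℝ)) *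
            ENNReal.ofReal ((1 + (0.36 * N) * f₂ θ) ^ (-(3 / 2) : ℝ)) := by
            refine lintegral_mono fun θ => ?_
            have hp1 : 0 ≤ (1 + N * f₁ b) ^ (-(3 / 2) : ℝ) :=
              Real.rpow_nonneg (by have := mul_nonneg hN.le (hf₁0 b); linarith) _
            rw [← ENNReal.ofReal_mul hp1]
            apply ENNReal.ofReal_le_ofReal
            apply hpow
            · exact mul_nonneg hN.le (hf₁0 b)
            · exact (mul_le_mul_of_nonneg_left (h1 b θ) hN.le).trans (hbase b θ)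
            · exact mul_nonneg (by positivity) (hf₂0 θ)
            · refine le_trans ?_ (hbase b θ)
              have := mul_le_mul_of_nonneg_left (h2 b θ hb1) hN.le
              linarith
        _ = ENNReal.ofReal ((1 + N * f₁ b) ^ (-(3 / 2) : ℝ)) *
            ∫⁻ θ in Icc (0 : ℝ) (2 * Real.pi),
              ENNReal.ofReal ((1 + (0.36 * N) * f₂ θ) ^ (-(3 / 2) : ℝ)) := by
            rw [lintegral_const_mul']
            exact ENNReal.ofReal_ne_top
        _ ≤ _ := mul_le_mul_right hI₂ _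
    refine hle.trans ?_
    rw [lintegral_mul_const' _ _ ENNReal.ofReal_ne_top]
    refine (mul_le_mul_left hI₁ _).trans ?_
    rw [← ENNReal.ofReal_mul (by positivity)]
    apply ENNReal.ofReal_le_ofReal
    have : dg false = 2 := by simp [dg]
    rw [this]
    have e : 3 * 6 / N * (3 * 13 / (0.36 * N)) = 1950 * N⁻¹ ^ 2 := by
      field_simp
      norm_num
    rw [e]
    nlinarith [pow_pos hNi 2]
  · have hle : ∫⁻ b in Icc (-(1 / (n : ℝ))) (1 / (n : ℝ)), ∫⁻ θ in Icc (0 : ℝ) (2 * Real.pi),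
        ENNReal.ofReal (((1 + 0.6 * ‖ξ - q * (((Real.exp b : ℝ) : ℂ) * aq true θ ^ 2)‖ / H) ^ A)⁻¹)
        ≤ ∫⁻ b in Icc (-(1 / (n : ℝ))) (1 / (n : ℝ)),
          ENNReal.ofReal ((1 + N * f₁ b) ^ (-(3 / 2) : ℝ)) * ENNReal.ofReal (2 * Real.pi) := by
      refine lintegral_mono fun b => ?_
      calc ∫⁻ θ in Icc (0 : ℝ) (2 * Real.pi), ENNReal.ofReal
            (((1 + 0.6 * ‖ξ - q * (((Real.exp b : ℝ) : ℂ) * aq true θ ^ 2)‖ / H) ^ A)⁻¹) ≤
          ∫⁻ _θ in Icc (0 : ℝ) (2 * Real.pi), ENNReal.ofReal ((1 + N * f₁ b) ^ (-(3 / 2) : ℝ)) := by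
            refine lintegral_mono fun θ => ?_
            apply ENNReal.ofReal_le_ofReal
            refine (hpow (N * f₁ b) 0 _ (mul_nonneg hN.le (hf₁0 b))
              ((mul_le_mul_of_nonneg_left (h1 b θ) hN.le).trans (hbase b θ)) le_rfl ?_).trans ?_
            · exact (mul_nonneg hN.le (norm_nonneg _)).trans (hbase b θ)
            · norm_num
        _ = _ := by
            rw [setLIntegral_const, Real.volume_Icc, sub_zero]
    refine hle.trans ?_
    rw [lintegral_mul_const' _ _ ENNReal.ofReal_ne_top]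
    refine (mul_le_mul_left hI₁ _).trans ?_
    rw [← ENNReal.ofReal_mul (by positivity)]
    apply ENNReal.ofReal_le_ofReal
    have : dg true = 1 := by simp [dg]
    rw [this, pow_one]
    have e : 3 * 6 / N * (2 * Real.pi) = 36 * Real.pi * N⁻¹ := by
      field_simp
      norm_num
    rw [e]
    nlinarith

/-- LA: the average of the ambiguity function. -/
theorem pf_LA : V_LA := by
  intro n A hn hA
  have hpi := Real.pi_pos
  have hpi2 : Real.pi ≤ 3.15 := Real.pi_lt_d2.le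
  have hpi3 := Real.pi_gt_three
  have hnn : (1 : ℝ) ≤ n := by exact_mod_cast hn
  have hn1 : 1 / (n : ℝ) ≤ 1 := by
    rw [div_le_one (by linarith)]; exact hnn
  refine ⟨13 * 32 ^ A + 5808000 * 6 ^ A, by positivity, ?_⟩
  intro r H c hP a ξ _ _
  have hH := hP.one_le
  have hH0 : 0 < H := by linarith
  set R : ℕ → ℝ := fun i => (2 : ℝ) ^ (-((i * dg r : ℕ) : ℝ)) *
      ((1 + ‖a‖ * H ^ 2 / 2 ^ i) ^ (-(A : ℝ)) * (1 + ‖ξ‖ / (H * 2 ^ i)) ^ (-(A : ℝ))) with hR
  have hR0 : ∀ i, 0 ≤ R i := fun i => by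
    rw [hR]
    have h1 : 0 ≤ 1 + ‖a‖ * H ^ 2 / 2 ^ i := by positivity
    have h2 : 0 ≤ 1 + ‖ξ‖ / (H * 2 ^ i) := by positivity
    positivity
  by_cases ha : H * ‖a‖ ≤ 1 / 2
  swap
  · -- everything vanishes
    refine le_trans (le_of_eq ?_) bot_le
    refine MeasureTheory.setLIntegral_eq_zero measurableSet_Icc ?_
    intro b hb
    refine MeasureTheory.setLIntegral_eq_zero measurableSet_Icc ?_
    intro θ _
    show ENNReal.ofReal _ = 0
    rw [ENNReal.ofReal_eq_zero]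
    have := amb_le r A H hH c a ξ b θ (abs_le.mpr ⟨by linarith [hb.1], by linarith [hb.2]⟩)
    rwa [if_neg ha] at this
  set q : ℂ := c * a / (2 * Real.pi * dg r) with hq
  -- reduction to the function J
  have hred : ∫⁻ b in Icc (-(1 / (n : ℝ))) (1 / (n : ℝ)), ∫⁻ θ in Icc (0 : ℝ) (2 * Real.pi),
      ENNReal.ofReal (amb r A c H (a * ((Real.exp (b / 2) : ℝ) : ℂ) * aq r θ)
        (ξ * ((Real.exp (-b / 2) : ℝ) : ℂ) * (starRingEnd ℂ) (aq r θ))) ≤
      ∫⁻ b in Icc (-(1 / (n : ℝ))) (1 / (n : ℝ)), ∫⁻ θ in Icc (0 : ℝ) (2 * Real.pi),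
      ENNReal.ofReal (((1 + 0.6 * ‖ξ - q * (((Real.exp b : ℝ) : ℂ) * aq r θ ^ 2)‖ / H) ^ A)⁻¹) := by
    refine setLIntegral_mono' measurableSet_Icc fun b hb => lintegral_mono fun θ => ?_
    apply ENNReal.ofReal_le_ofReal
    have := amb_le r A H hH c a ξ b θ (abs_le.mpr ⟨by linarith [hb.1], by linarith [hb.2]⟩)
    rwa [if_pos ha] at this
  refine hred.trans ?_
  -- the index
  have hm : H ≤ 2 ^ nH H := by
    have h1 : ⌈H⌉₊ ≤ 2 ^ nH H := Nat.le_pow_clog (by norm_num) _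
    calc H ≤ (⌈H⌉₊ : ℝ) := Nat.le_ceil _
      _ ≤ _ := by exact_mod_cast h1
  have hex : ‖a‖ * H ^ 2 ≤ 2 ^ nH H := by
    refine le_trans ?_ hm
    nlinarith [norm_nonneg a]
  classical
  have hexi : ∃ i : ℕ, ‖a‖ * H ^ 2 ≤ 2 ^ i := ⟨_, hex⟩
  set i := Nat.find hexi with hi
  have hi1 : ‖a‖ * H ^ 2 ≤ 2 ^ i := Nat.find_spec hexi
  have hi2 : i ≤ nH H := Nat.find_min' hexi hex
  have hpow : (0 : ℝ) < 2 ^ i := by positivity
  have hmain : ∫⁻ b in Icc (-(1 / (n : ℝ))) (1 / (n : ℝ)), ∫⁻ θ in Icc (0 : ℝ) (2 * Real.pi),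
      ENNReal.ofReal (((1 + 0.6 * ‖ξ - q * (((Real.exp b : ℝ) : ℂ) * aq r θ ^ 2)‖ / H) ^ A)⁻¹) ≤
      ENNReal.ofReal ((13 * 32 ^ A + 5808000 * 6 ^ A) * R i) := by
    set x : ℝ := ‖ξ‖ / (H * 2 ^ i) with hx
    have hx0 : 0 ≤ x := by positivity
    have hdg : dg r = 1 ∨ dg r = 2 := by cases r <;> simp [dg]
    have hdg1 : (1 : ℝ) ≤ (dg r : ℝ) := by rcases hdg with h | h <;> rw [h] <;> norm_num
    have hdg2 : (dg r : ℝ) ≤ 2 := by rcases hdg with h | h <;> rw [h] <;> norm_num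
    have hRi : R i = ((2 ^ i) ^ dg r)⁻¹ * (((1 + ‖a‖ * H ^ 2 / 2 ^ i) ^ A)⁻¹ *
        ((1 + x) ^ A)⁻¹) := by
      rw [hR]
      simp only
      rw [Real.rpow_neg (by norm_num), Real.rpow_natCast, pow_mul, Real.rpow_neg (by positivity),
        Real.rpow_natCast, Real.rpow_neg (by positivity), Real.rpow_natCast]
    have hR1 : ((2 ^ i) ^ dg r)⁻¹ * ((2 ^ A)⁻¹ * ((1 + x) ^ A)⁻¹) ≤ R i := by
      rw [hRi]
      have h1 : ‖a‖ * H ^ 2 / 2 ^ i ≤ 1 := by rw [div_le_one hpow]; exact hi1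
      have h2 : (2 ^ A : ℝ)⁻¹ ≤ ((1 + ‖a‖ * H ^ 2 / 2 ^ i) ^ A)⁻¹ := by
        apply inv_anti₀ (by positivity)
        exact pow_le_pow_left₀ (by positivity) (by linarith) A
      exact mul_le_mul_of_nonneg_left (mul_le_mul_of_nonneg_right h2 (by positivity))
        (by positivity)
    have hqn : ‖q‖ = ‖c‖ * ‖a‖ / (2 * Real.pi * dg r) := by
      rw [hq, norm_div, norm_mul]
      congr 1
      rw [norm_mul, norm_mul, Complex.norm_two, Complex.norm_real, Complex.norm_natCast,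
        Real.norm_of_nonneg hpi.le]
    have hsn : ∀ b θ : ℝ, b ≤ 1 → ‖ξ‖ - 2.72 * ‖q‖ ≤
        ‖ξ - q * (((Real.exp b : ℝ) : ℂ) * aq r θ ^ 2)‖ := by
      intro b θ hb
      have h1 := norm_sub_norm_le ξ (q * (((Real.exp b : ℝ) : ℂ) * aq r θ ^ 2))
      have h2 : ‖q * (((Real.exp b : ℝ) : ℂ) * aq r θ ^ 2)‖ = ‖q‖ * Real.exp b := by
        rw [norm_mul, norm_mul, norm_pow, norm_aq, one_pow, mul_one, Complex.norm_real,
          Real.norm_of_nonneg (Real.exp_pos _).le]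
      have h3 : Real.exp b ≤ 2.72 := by
        have h4 : Real.exp b ≤ Real.exp 1 := Real.exp_le_exp.mpr hb
        have h5 := Real.exp_one_lt_d9
        linarith
      rw [h2] at h1
      nlinarith [norm_nonneg q]
    have hcn : ‖c‖ ≤ H ^ 3 := by rw [hP.cube]; exact le_max_right _ _
    have hqup : ‖q‖ ≤ H * 2 ^ i / 6 := by
      rw [hqn, div_le_div_iff₀ (by positivity) (by norm_num)]
      have h1 : ‖c‖ * ‖a‖ ≤ H * 2 ^ i := by
        calc ‖c‖ * ‖a‖ ≤ H ^ 3 * ‖a‖ := mul_le_mul_of_nonneg_right hcn (norm_nonneg _)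
          _ = H * (‖a‖ * H ^ 2) := by ring
          _ ≤ _ := mul_le_mul_of_nonneg_left hi1 hH0.le
      have h2 : (6 : ℝ) ≤ 2 * Real.pi * dg r := by nlinarith
      have h3 : 0 ≤ ‖c‖ * ‖a‖ := by positivity
      have h4 : 0 ≤ H * 2 ^ i := by positivity
      nlinarith
    -- the pointwise case
    have hpt : (∀ b θ : ℝ, b ≤ 1 → 1 / 16 * (1 + x) * 2 ^ i ≤
        1 + 0.6 * ‖ξ - q * (((Real.exp b : ℝ) : ℂ) * aq r θ ^ 2)‖ / H) →
        ∫⁻ b in Icc (-(1 / (n : ℝ))) (1 / (n : ℝ)), ∫⁻ θ in Icc (0 : ℝ) (2 * Real.pi),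
        ENNReal.ofReal (((1 + 0.6 * ‖ξ - q * (((Real.exp b : ℝ) : ℂ) * aq r θ ^ 2)‖ / H) ^ A)⁻¹) ≤
        ENNReal.ofReal ((13 * 32 ^ A + 5808000 * 6 ^ A) * R i) := by
      intro hy
      have h1 : ∀ b θ : ℝ, b ≤ 1 →
          ((1 + 0.6 * ‖ξ - q * (((Real.exp b : ℝ) : ℂ) * aq r θ ^ 2)‖ / H) ^ A)⁻¹ ≤
          32 ^ A * R i := by
        intro b θ hb
        refine (case_A A x _ (2 ^ i) hx0 (hy b θ hb) hpow).trans ?_
        have h2 : (((2 : ℝ) ^ i) ^ A)⁻¹ ≤ ((2 ^ i) ^ dg r)⁻¹ := by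
          apply inv_anti₀ (by positivity)
          apply pow_le_pow_right₀ (one_le_pow₀ (by norm_num))
          rcases hdg with h | h <;> omega
        calc 16 ^ A * (((2 : ℝ) ^ i) ^ A)⁻¹ * ((1 + x) ^ A)⁻¹ ≤
            16 ^ A * ((2 ^ i) ^ dg r)⁻¹ * ((1 + x) ^ A)⁻¹ :=
              mul_le_mul_of_nonneg_right (mul_le_mul_of_nonneg_left h2 (by positivity))
                (by positivity)
          _ = 32 ^ A * (((2 ^ i) ^ dg r)⁻¹ * ((2 ^ A)⁻¹ * ((1 + x) ^ A)⁻¹)) := by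
              have : (32 : ℝ) ^ A = 16 ^ A * 2 ^ A := by rw [← mul_pow]; norm_num
              rw [this]
              field_simp
          _ ≤ _ := mul_le_mul_of_nonneg_left hR1 (by positivity)
      calc ∫⁻ b in Icc (-(1 / (n : ℝ))) (1 / (n : ℝ)), ∫⁻ θ in Icc (0 : ℝ) (2 * Real.pi),
          ENNReal.ofReal (((1 + 0.6 * ‖ξ - q * (((Real.exp b : ℝ) : ℂ) * aq r θ ^ 2)‖ / H) ^ A)⁻¹) ≤
          ∫⁻ _b in Icc (-(1 / (n : ℝ))) (1 / (n : ℝ)), ∫⁻ _θ in Icc (0 : ℝ) (2 * Real.pi),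
            ENNReal.ofReal (32 ^ A * R i) := by
            refine setLIntegral_mono' measurableSet_Icc fun b hb => lintegral_mono fun θ => ?_
            exact ENNReal.ofReal_le_ofReal (h1 b θ (by linarith [hb.2]))
        _ = ENNReal.ofReal (32 ^ A * R i) * ENNReal.ofReal (2 * Real.pi) *
            ENNReal.ofReal (2 / n) := by
            rw [setLIntegral_const, setLIntegral_const, Real.volume_Icc, Real.volume_Icc, sub_zero]
            congr 2
            ring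
        _ ≤ _ := by
            have h32 : 0 ≤ 32 ^ A * R i := mul_nonneg (by positivity) (hR0 i)
            rw [← ENNReal.ofReal_mul h32, ← ENNReal.ofReal_mul (by positivity)]
            apply ENNReal.ofReal_le_ofReal
            have h2n : 2 / (n : ℝ) ≤ 2 := by
              rw [div_le_iff₀ (by linarith)]; linarith
            have h3 : 32 ^ A * R i * (2 * Real.pi) * (2 / n) ≤ 32 ^ A * R i * (2 * Real.pi) * 2 :=
              mul_le_mul_of_nonneg_left h2n (by positivity)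
            have h4 : 0 ≤ 5808000 * (6 : ℝ) ^ A * R i := mul_nonneg (by positivity) (hR0 i)
            nlinarith
    rcases Nat.eq_zero_or_pos i with h0 | h0
    · -- case 0
      apply hpt
      intro b θ hb
      have h1 := hsn b θ hb
      have hqup' : ‖q‖ ≤ H / 6 := by
        rw [h0] at hqup; simpa using hqup
      have hxx : x = ‖ξ‖ / H := by rw [hx, h0]; simp
      have h2 : ‖ξ‖ / H - 2.72 / 6 ≤ ‖ξ - q * (((Real.exp b : ℝ) : ℂ) * aq r θ ^ 2)‖ / H := by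
        rw [le_div_iff₀ hH0, sub_mul, div_mul_cancel₀ _ hH0.ne']
        linarith
      have h3 : 0 ≤ ‖ξ - q * (((Real.exp b : ℝ) : ℂ) * aq r θ ^ 2)‖ / H := by positivity
      have e : 0.6 * ‖ξ - q * (((Real.exp b : ℝ) : ℂ) * aq r θ ^ 2)‖ / H =
          0.6 * (‖ξ - q * (((Real.exp b : ℝ) : ℂ) * aq r θ ^ 2)‖ / H) := by ring
      rw [h0, pow_zero, mul_one, e]
      rw [← hxx] at h2
      linarith
    · -- i ≥ 1
      have hi3 : (2 : ℝ) ^ i / 2 < ‖a‖ * H ^ 2 := by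
        have h1 := Nat.find_min hexi (m := i - 1) (by omega)
        push Not at h1
        have h2 : (2 : ℝ) ^ i = 2 ^ (i - 1) * 2 := by
          rw [← pow_succ]; congr 1; omega
        rw [h2]
        linarith
      have hi4 : (2 : ℝ) ≤ 2 ^ i := by
        calc (2 : ℝ) = 2 ^ 1 := by norm_num
          _ ≤ _ := pow_le_pow_right₀ (by norm_num) h0
      have hH2 : 1 < H := by
        by_contra h
        push Not at h
        have hH1 : H = 1 := le_antisymm h hH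
        rw [hH1] at ha hi3
        linarith
      have hceq : ‖c‖ = H ^ 3 := by
        have h1 : 1 < H ^ 3 := one_lt_pow₀ hH2 (by norm_num)
        rw [hP.cube] at h1 ⊢
        rcases le_total ‖c‖ 1 with h2 | h2
        · rw [max_eq_left h2] at h1
          linarith
        · rw [max_eq_right h2]
      have hqlo : H * 2 ^ i / 26 ≤ ‖q‖ := by
        rw [hqn, hceq, div_le_div_iff₀ (by norm_num) (by positivity)]
        have h1 : H * (2 ^ i / 2) ≤ H ^ 3 * ‖a‖ := by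
          calc H * (2 ^ i / 2) ≤ H * (‖a‖ * H ^ 2) := mul_le_mul_of_nonneg_left hi3.le hH0.le
            _ = _ := by ring
        have h2 : 2 * Real.pi * dg r ≤ 13 := by nlinarith
        have h3 : 0 ≤ H * 2 ^ i := by positivity
        nlinarith
      by_cases hξ : 12 * ‖q‖ ≤ ‖ξ‖
      · -- case A
        apply hpt
        intro b θ hb
        have h1 := hsn b θ hb
        have hxx : 12 / 26 ≤ x := by
          rw [hx, le_div_iff₀ (by positivity)]
          linarith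
        have h2 : 0.4 * ‖ξ‖ ≤ 0.6 * ‖ξ - q * (((Real.exp b : ℝ) : ℂ) * aq r θ ^ 2)‖ := by
          linarith
        have h3 : 0.4 * (x * 2 ^ i) ≤ 0.6 * ‖ξ - q * (((Real.exp b : ℝ) : ℂ) * aq r θ ^ 2)‖ / H := by
          rw [le_div_iff₀ hH0]
          refine le_trans (le_of_eq ?_) h2
          rw [hx]
          field_simp
        nlinarith
      · -- case B
        push Not at hξ
        have hN : (2 : ℝ) ^ i / 44 ≤ 0.6 * ‖q‖ / H := by
          rw [le_div_iff₀ hH0]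
          nlinarith
        refine (case_B r A n hn hA q ξ H (2 ^ i / 44) hH0 (by positivity) hN).trans ?_
        apply ENNReal.ofReal_le_ofReal
        have hxx : 1 + x ≤ 3 := by
          have : x ≤ 2 := by
            rw [hx, div_le_iff₀ (by positivity)]
            linarith
          linarith
        have h1 : ((2 : ℝ) ^ i / 44)⁻¹ ^ dg r ≤ 44 ^ 2 * ((2 ^ i) ^ dg r)⁻¹ := by
          rw [inv_div, div_pow, div_eq_mul_inv]
          apply mul_le_mul_of_nonneg_right _ (by positivity)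
          apply pow_le_pow_right₀ (by norm_num)
          rcases hdg with h | h <;> omega
        have h2 : ((2 ^ i) ^ dg r)⁻¹ ≤ 6 ^ A * R i := by
          have h3 : ((6 : ℝ) ^ A)⁻¹ ≤ (2 ^ A)⁻¹ * ((1 + x) ^ A)⁻¹ := by
            rw [← mul_inv, ← mul_pow]
            apply inv_anti₀ (by positivity)
            exact pow_le_pow_left₀ (by positivity) (by linarith) A
          have h4 : ((2 ^ i) ^ dg r)⁻¹ * ((6 : ℝ) ^ A)⁻¹ ≤ R i :=
            (mul_le_mul_of_nonneg_left h3 (by positivity)).trans hR1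
          have h5 : (0 : ℝ) < 6 ^ A := by positivity
          calc (((2 : ℝ) ^ i) ^ dg r)⁻¹ = 6 ^ A * (((2 ^ i) ^ dg r)⁻¹ * ((6 : ℝ) ^ A)⁻¹) := by
                field_simp
            _ ≤ _ := mul_le_mul_of_nonneg_left h4 h5.le
        have h6 : 0 ≤ 13 * (32 : ℝ) ^ A * R i := mul_nonneg (by positivity) (hR0 i)
        calc 3000 * ((2 : ℝ) ^ i / 44)⁻¹ ^ dg r ≤ 3000 * (44 ^ 2 * ((2 ^ i) ^ dg r)⁻¹) :=
              mul_le_mul_of_nonneg_left h1 (by norm_num)
          _ ≤ 3000 * (44 ^ 2 * (6 ^ A * R i)) := by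
              apply mul_le_mul_of_nonneg_left _ (by norm_num)
              exact mul_le_mul_of_nonneg_left h2 (by norm_num)
          _ = 5808000 * 6 ^ A * R i := by ring
          _ ≤ _ := by nlinarith
  refine hmain.trans (ENNReal.ofReal_le_ofReal ?_)
  apply mul_le_mul_of_nonneg_left _ (by positivity)
  exact Finset.single_le_sum (f := R) (fun j _ => hR0 j) (Finset.mem_range.mpr (by omega))

end Pool.Agent.H21.DW
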