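import Pool.Agent.H21.DW.Ang

/-!
# The average of the square of the test function (row LD)
-/

set_option autoImplicit false

open MeasureTheory Set Filter Complex
open scoped ENNReal

namespace Pool.Agent.H21.DW

open Pool.Agent.H29.DW

/-- The set of the `b` for which the absolute value is near `1`. -/
theorem vol_rad (a δ : ℝ) (hδ : 0 ≤ δ) (hδ1 : δ ≤ 1 / 16) :
    volume {b : ℝ | |a * Real.exp (b / 2) - 1| ≤ δ} ≤ ENNReal.ofReal (5 * δ) := by
  refine vol_le _ _ ?_
  have key : ∀ x y : ℝ, |a * Real.exp (x / 2) - 1| ≤ δ → |a * Real.exp (y / 2) - 1| ≤ δ →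
      x - y ≤ 5 * δ := by
    intro x y hx hy
    rw [abs_le] at hx hy
    have hex := Real.exp_pos (x / 2)
    have hey := Real.exp_pos (y / 2)
    have ha : 0 < a := by
      by_contra h
      push Not at h
      nlinarith [mul_nonpos_of_nonpos_of_nonneg h hey.le]
    have h1 : Real.exp (x / 2) = Real.exp (y / 2) * Real.exp ((x - y) / 2) := by
      rw [← Real.exp_add]; congr 1; ring
    have h2 : (x - y) / 2 + 1 ≤ Real.exp ((x - y) / 2) := Real.add_one_le_exp _
    have h3 : a * Real.exp (y / 2) * Real.exp ((x - y) / 2) ≤ 1 + δ := by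
      rw [mul_assoc, ← h1]; linarith
    have h4 : 1 - δ ≤ a * Real.exp (y / 2) := by linarith
    have h5 : (1 - δ) * Real.exp ((x - y) / 2) ≤ 1 + δ :=
      (mul_le_mul_of_nonneg_right h4 (Real.exp_pos _).le).trans h3
    have h6 : (1 - δ) * ((x - y) / 2 + 1) ≤ 1 + δ :=
      (mul_le_mul_of_nonneg_left h2 (by linarith)).trans h5
    nlinarith
  intro x hx y hy
  rw [abs_le]
  constructor
  · have := key y x hy hx; linarith
  · exact key x y hx hy

/-- LD: the average of the square of the test function. -/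
theorem pf_LD : V_LD := by
  intro n A hn
  have hpi := Real.pi_pos
  have hpi2 : Real.pi ≤ 3.15 := Real.pi_lt_d2.le
  refine ⟨3 ^ A * 3, by positivity, ?_⟩
  intro r B H c a p hB hp hH ha
  set δ : ℝ := 1 / (16 * H) with hδ
  have hH0 : 0 < H := by linarith
  have hδ0 : 0 < δ := by positivity
  have hδ1 : δ ≤ 1 / 16 := by
    rw [hδ]
    apply one_div_le_one_div_of_le (by norm_num)
    linarith
  have hnn : (1 : ℝ) ≤ n := by exact_mod_cast hn
  have hn1 : 1 / (n : ℝ) ≤ 1 := by
    rw [div_le_one (by linarith)]; exact hnn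
  -- pointwise bound
  have hpt : ∀ w : ℂ, ‖tw1 c H p w‖ ^ 2 ≤ if ‖w - 1‖ ≤ δ then B ^ 2 else 0 := by
    intro w
    rw [norm_tw1]
    split_ifs with h
    · have h1 := hp.bound 0 (le_refl 0) (H * (w - 1))
      rw [norm_iteratedFDeriv_zero] at h1
      exact pow_le_pow_left₀ (norm_nonneg _) h1 2
    · rw [hp.supp]
      · simp
      · push Not at h
        rw [norm_mul, Complex.norm_real, Real.norm_of_nonneg hH0.le]
        have : H * δ = 1 / 16 := by rw [hδ]; field_simp
        nlinarith
  have hnorm : ∀ b θ : ℝ, ‖a * ((Real.exp (b / 2) : ℝ) : ℂ) * aq r θ‖ = ‖a‖ * Real.exp (b / 2) := by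
    intro b θ
    rw [norm_mul, norm_mul, norm_aq, mul_one, Complex.norm_real,
      Real.norm_of_nonneg (Real.exp_pos _).le]
  have hrad : ∀ b θ : ℝ, ‖a * ((Real.exp (b / 2) : ℝ) : ℂ) * aq r θ - 1‖ ≤ δ →
      |‖a‖ * Real.exp (b / 2) - 1| ≤ δ := by
    intro b θ h
    have := abs_norm_sub_norm_le (a * ((Real.exp (b / 2) : ℝ) : ℂ) * aq r θ) 1
    rw [hnorm, norm_one] at this
    exact this.trans h
  by_cases hbig : 2 < ‖a‖
  · -- everything vanishes
    refine le_trans (le_of_eq ?_) bot_le
    refine MeasureTheory.setLIntegral_eq_zero measurableSet_Icc ?_ |>.trans rfl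
    intro b hb
    refine MeasureTheory.setLIntegral_eq_zero measurableSet_Icc ?_
    intro θ _
    show ENNReal.ofReal _ = 0
    rw [ENNReal.ofReal_eq_zero]
    refine (hpt _).trans ?_
    rw [if_neg]
    intro h
    have h1 := hrad b θ h
    rw [abs_le] at h1
    have h2 : Real.exp (-(1 / 2)) ≤ Real.exp (b / 2) := by
      apply Real.exp_le_exp.mpr
      have := hb.1
      linarith
    have h3 : (1 : ℝ) / 2 ≤ Real.exp (-(1 / 2)) := by
      have := Real.add_one_le_exp (-(1 / 2 : ℝ))
      linarith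
    have h4 : (0.6 : ℝ) ≤ Real.exp (-(1 / 2)) := by
      have h5 : Real.exp (-(1 / 2 : ℝ)) * Real.exp (-(1 / 2 : ℝ)) = Real.exp (-1) := by
        rw [← Real.exp_add]; norm_num
      have h6 := Real.exp_neg_one_gt_d9
      nlinarith
    nlinarith
  · push Not at hbig
    -- the inner integral
    set K : ℝ := if r then 2 * Real.pi else 8 * δ with hK
    have hK0 : 0 ≤ K := by rw [hK]; split_ifs <;> positivity
    have hin : ∀ b : ℝ, ∫⁻ θ in Icc (0 : ℝ) (2 * Real.pi),
        ENNReal.ofReal (‖tw1 c H p (a * ((Real.exp (b / 2) : ℝ) : ℂ) * aq r θ)‖ ^ 2) ≤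
        ({b : ℝ | |‖a‖ * Real.exp (b / 2) - 1| ≤ δ}).indicator
          (fun _ => ENNReal.ofReal (B ^ 2 * K)) b := by
      intro b
      by_cases hb : |‖a‖ * Real.exp (b / 2) - 1| ≤ δ
      · rw [Set.indicator_of_mem (by exact hb)]
        have hle : ∀ θ : ℝ,
            ENNReal.ofReal (‖tw1 c H p (a * ((Real.exp (b / 2) : ℝ) : ℂ) * aq r θ)‖ ^ 2) ≤
            ({θ : ℝ | ‖a * ((Real.exp (b / 2) : ℝ) : ℂ) * aq r θ - 1‖ ≤ δ}).indicator
              (fun _ => ENNReal.ofReal (B ^ 2)) θ := by
          intro θ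
          by_cases h : ‖a * ((Real.exp (b / 2) : ℝ) : ℂ) * aq r θ - 1‖ ≤ δ
          · rw [Set.indicator_of_mem (by exact h)]
            apply ENNReal.ofReal_le_ofReal
            have := hpt (a * ((Real.exp (b / 2) : ℝ) : ℂ) * aq r θ)
            rwa [if_pos h] at this
          · rw [Set.indicator_of_notMem (by exact h)]
            have := hpt (a * ((Real.exp (b / 2) : ℝ) : ℂ) * aq r θ)
            rw [if_neg h] at this
            rw [ENNReal.ofReal_eq_zero.mpr this]
        refine (lintegral_mono hle).trans ((lintegral_indicator_const_le _ _).trans ?_)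
        rw [Measure.restrict_apply' measurableSet_Icc, ENNReal.ofReal_mul (by positivity)]
        refine mul_le_mul_right ?_ _
        rw [hK]
        by_cases hr : r = true
        · rw [if_pos hr]
          refine (measure_mono inter_subset_right).trans ?_
          rw [Real.volume_Icc, sub_zero]
        · rw [if_neg hr]
          have := vol_angle (‖a‖ * Real.exp (b / 2)) δ (a * ((Real.exp (b / 2) : ℝ) : ℂ)) 1
            (by rw [abs_le] at hb; linarith) hδ0.le (by
              rw [norm_mul, Complex.norm_real, Real.norm_of_nonneg (Real.exp_pos _).le])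
          refine le_trans (measure_mono ?_) this
          rintro θ ⟨h1, h2⟩
          refine ⟨?_, h2⟩
          have h1' : ‖a * ((Real.exp (b / 2) : ℝ) : ℂ) * aq r θ - 1‖ ≤ δ := h1
          have e : aq r θ = cexp (θ * I) := by unfold aq; rw [if_neg hr]
          rw [e] at h1'
          exact h1'
      · rw [Set.indicator_of_notMem (by exact hb)]
        rw [nonpos_iff_eq_zero]
        refine MeasureTheory.setLIntegral_eq_zero measurableSet_Icc ?_
        intro θ _
        show ENNReal.ofReal _ = 0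
        rw [ENNReal.ofReal_eq_zero]
        refine (hpt _).trans ?_
        rw [if_neg]
        intro h
        exact hb (hrad b θ h)
    refine (lintegral_mono hin).trans ((lintegral_indicator_const_le _ _).trans ?_)
    have hv : (volume.restrict (Icc (-(1 / (n : ℝ))) (1 / (n : ℝ))))
        {b : ℝ | |‖a‖ * Real.exp (b / 2) - 1| ≤ δ} ≤ ENNReal.ofReal (5 * δ) :=
      (Measure.restrict_apply_le _ _).trans (vol_rad ‖a‖ δ hδ0.le hδ1)
    refine (mul_le_mul_right hv _).trans ?_
    rw [← ENNReal.ofReal_mul (by positivity)]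
    apply ENNReal.ofReal_le_ofReal
    have h3 : (1 : ℝ) ≤ 3 ^ A * (1 + ‖a‖) ^ (-(A : ℝ)) := by
      rw [Real.rpow_neg (by positivity), Real.rpow_natCast, ← div_eq_mul_inv,
        one_le_div (by positivity)]
      exact pow_le_pow_left₀ (by positivity) (by linarith) A
    have hKδ : K * (5 * δ) ≤ 3 * H ^ (-(dg r : ℝ)) := by
      rw [hK]
      by_cases hr : r = true
      · rw [if_pos hr]
        have e : H ^ (-(dg r : ℝ)) = H⁻¹ := by
          rw [hr]; simp [dg, Real.rpow_neg_one]
        rw [e]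
        have e2 : δ = H⁻¹ / 16 := by rw [hδ]; field_simp
        rw [e2]
        have : 0 < H⁻¹ := by positivity
        nlinarith
      · rw [if_neg hr]
        have e : H ^ (-(dg r : ℝ)) = H⁻¹ ^ 2 := by
          simp only [dg, if_neg hr]
          rw [Real.rpow_neg hH0.le, inv_pow]
          norm_num
        rw [e]
        have e2 : δ = H⁻¹ / 16 := by rw [hδ]; field_simp
        rw [e2]
        have : 0 < H⁻¹ := by positivity
        nlinarith
    have hHr : 0 < H ^ (-(dg r : ℝ)) := Real.rpow_pos_of_pos hH0 _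
    calc B ^ 2 * K * (5 * δ) = B ^ 2 * (K * (5 * δ)) := by ring
      _ ≤ B ^ 2 * (3 * H ^ (-(dg r : ℝ))) := mul_le_mul_of_nonneg_left hKδ (by positivity)
      _ = (B ^ 2 * (3 * H ^ (-(dg r : ℝ)))) * 1 := by ring
      _ ≤ (B ^ 2 * (3 * H ^ (-(dg r : ℝ)))) * (3 ^ A * (1 + ‖a‖) ^ (-(A : ℝ))) :=
        mul_le_mul_of_nonneg_left h3 (by positivity)
      _ = 3 ^ A * 3 * B ^ 2 * H ^ (-(dg r : ℝ)) * (1 + ‖a‖) ^ (-(A : ℝ)) := by ring

end Pool.Agent.H21.DW
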