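import Pool.Agent.H21.DW.Ang

/-!
# Layers
-/

set_option autoImplicit false

open MeasureTheory Set Filter Complex
open scoped ENNReal

namespace Pool.Agent.H21.DW

open Pool.Agent.H29.DW

/-- The integral of a power of a function with small sublevel sets. -/
theorem layer (S : Set ℝ) (hS : MeasurableSet S) (f : ℝ → ℝ) (hf : Measurable f)
    (hf0 : ∀ x, 0 ≤ f x) (K N : ℝ) (hK : 0 ≤ K) (hN : 0 < N)
    (h : ∀ ρ : ℝ, 0 ≤ ρ → volume ({x | f x ≤ ρ} ∩ S) ≤ ENNReal.ofReal (K * ρ)) :
    ∫⁻ x in S, ENNReal.ofReal ((1 + N * f x) ^ (-(3 / 2) : ℝ)) ≤ ENNReal.ofReal (3 * K / N) := by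
  have hpos : ∀ x, 0 < 1 + N * f x := fun x => by
    have := mul_nonneg hN.le (hf0 x); linarith
  rw [lintegral_eq_lintegral_meas_le (volume.restrict S)
    (Eventually.of_forall fun x => Real.rpow_nonneg (hpos x).le _)
    ((measurable_const.add (measurable_const.mul hf)).pow_const _).aemeasurable]
  have hle : ∀ t ∈ Ioi (0 : ℝ), (volume.restrict S) {a | t ≤ (1 + N * f a) ^ (-(3 / 2) : ℝ)} ≤
      (Ioc (0 : ℝ) 1).indicator (fun t => ENNReal.ofReal (K / N * t ^ (-(2 / 3) : ℝ))) t := by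
    intro t ht
    have ht0 : 0 < t := ht
    by_cases h1 : t ≤ 1
    · rw [Set.indicator_of_mem (show t ∈ Ioc (0 : ℝ) 1 from ⟨ht0, h1⟩)]
      have hsub : {a | t ≤ (1 + N * f a) ^ (-(3 / 2) : ℝ)} ⊆ {a | f a ≤ t ^ (-(2 / 3) : ℝ) / N} := by
        intro a ha
        have ha' : t ≤ (1 + N * f a) ^ (-(3 / 2) : ℝ) := ha
        have h2 : 1 + N * f a ≤ t ^ (-(2 / 3) : ℝ) := by
          have h3 : ((1 + N * f a) ^ (-(3 / 2) : ℝ)) ^ (-(2 / 3) : ℝ) ≤ t ^ (-(2 / 3) : ℝ) :=
            Real.rpow_le_rpow_of_nonpos ht0 ha' (by norm_num)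
          rw [← Real.rpow_mul (hpos a).le] at h3
          norm_num at h3
          exact h3
        show f a ≤ t ^ (-(2 / 3) : ℝ) / N
        rw [le_div_iff₀ hN]
        linarith
      rw [Measure.restrict_apply' hS]
      refine (measure_mono (inter_subset_inter_left _ hsub)).trans ((h _ ?_).trans (le_of_eq ?_))
      · exact div_nonneg (Real.rpow_nonneg ht0.le _) hN.le
      · congr 1; ring
    · push Not at h1
      have : {a | t ≤ (1 + N * f a) ^ (-(3 / 2) : ℝ)} = ∅ := by
        ext a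
        simp only [mem_ofPred_eq, mem_empty_iff_false, iff_false, not_le]
        refine lt_of_le_of_lt ?_ h1
        apply Real.rpow_le_one_of_one_le_of_nonpos
        · have := mul_nonneg hN.le (hf0 a); linarith
        · norm_num
      rw [this]
      simp
  refine (setLIntegral_mono' measurableSet_Ioi hle).trans ?_
  rw [lintegral_indicator measurableSet_Ioc, Measure.restrict_restrict measurableSet_Ioc]
  have e1 : Ioc (0 : ℝ) 1 ∩ Ioi 0 = Ioc 0 1 := by
    ext x; simp
  rw [e1]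
  have hint : IntervalIntegrable (fun t : ℝ => K / N * t ^ (-(2 / 3) : ℝ)) volume 0 1 :=
    (intervalIntegral.intervalIntegrable_rpow' (by norm_num)).const_mul _
  rw [← ofReal_integral_eq_lintegral_ofReal]
  · rw [← intervalIntegral.integral_of_le zero_le_one, intervalIntegral.integral_const_mul,
      integral_rpow (Or.inl (by norm_num))]
    apply ENNReal.ofReal_le_ofReal
    refine le_of_eq ?_
    norm_num
    ring
  · exact (intervalIntegrable_iff_integrableOn_Ioc_of_le zero_le_one).mp hint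
  · refine (ae_restrict_iff' measurableSet_Ioc).mpr (Eventually.of_forall fun t ht => ?_)
    have := Real.rpow_nonneg ht.1.le (-(2 / 3) : ℝ)
    positivity

/-- The sublevel sets of `|exp b - x|`. -/
theorem vol_exp (x ρ c : ℝ) (hc : c ≤ 1) :
    volume ({b | |Real.exp b - x| ≤ ρ} ∩ Icc (-c) c) ≤ ENNReal.ofReal (6 * ρ) := by
  refine vol_le _ _ ?_
  have key : ∀ b b' : ℝ, -1 ≤ b' → |Real.exp b - x| ≤ ρ → |Real.exp b' - x| ≤ ρ →
      b - b' ≤ 6 * ρ := by
    intro b b' hb' h1 h2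
    have hρ : 0 ≤ ρ := (abs_nonneg _).trans h1
    rw [abs_le] at h1 h2
    have h3 : Real.exp b = Real.exp b' * Real.exp (b - b') := by
      rw [← Real.exp_add]; congr 1; ring
    have h4 : b - b' + 1 ≤ Real.exp (b - b') := Real.add_one_le_exp _
    have h5 : Real.exp (-1) ≤ Real.exp b' := Real.exp_le_exp.mpr hb'
    have h6 := Real.exp_neg_one_gt_d9
    by_contra h7
    push Not at h7
    have h8 : 0 < b - b' := by linarith
    have h9 : Real.exp b' * (b - b') ≤ 2 * ρ := by
      nlinarith [Real.exp_pos b']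
    nlinarith
  rintro b ⟨h1, h2⟩ b' ⟨h3, h4⟩
  rw [abs_le]
  constructor
  · have := key b' b (by linarith [h2.1]) h3 h1
    linarith
  · exact key b b' (by linarith [h4.1]) h1 h3

/-- The sublevel sets of `|sin (2 θ - α)|`. -/
theorem vol_sin (α ρ : ℝ) :
    volume ({θ | |Real.sin (2 * θ - α)| ≤ ρ} ∩ Icc 0 (2 * Real.pi)) ≤
      ENNReal.ofReal (13 * ρ) := by
  have hpi := Real.pi_pos
  by_cases hρ : ρ < 0
  · have : {θ | |Real.sin (2 * θ - α)| ≤ ρ} = ∅ := by
      ext θ
      simp only [mem_ofPred_eq, mem_empty_iff_false, iff_false, not_le]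
      exact lt_of_lt_of_le hρ (abs_nonneg _)
    rw [this]
    simp
  push Not at hρ
  have key : ∀ x y : ℝ, |Real.sin (2 * x - α)| ≤ ρ → |Real.sin (2 * y - α)| ≤ ρ →
      |x - y| ≤ Real.pi / 4 → |x - y| ≤ 13 / 8 * ρ := by
    intro x y hx hy hxy
    have h1 : Real.sin (2 * (x - y)) = Real.sin (2 * x - α) * Real.cos (2 * y - α) -
        Real.cos (2 * x - α) * Real.sin (2 * y - α) := by
      rw [← Real.sin_sub]; congr 1; ring
    have h2 : |Real.sin (2 * (x - y))| ≤ 2 * ρ := by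
      rw [h1]
      refine (abs_sub _ _).trans ?_
      rw [abs_mul, abs_mul]
      have h3 := Real.abs_cos_le_one (2 * y - α)
      have h4 := Real.abs_cos_le_one (2 * x - α)
      have h5 := abs_nonneg (Real.sin (2 * x - α))
      have h6 := abs_nonneg (Real.sin (2 * y - α))
      nlinarith [abs_nonneg (Real.cos (2 * y - α)), abs_nonneg (Real.cos (2 * x - α))]
    have h3 : 2 / Real.pi * |2 * (x - y)| ≤ |Real.sin (2 * (x - y))| := by
      apply Real.mul_abs_le_abs_sin
      rw [abs_mul, abs_two]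
      linarith
    rw [abs_mul, abs_two] at h3
    have h4 : 2 / Real.pi * (2 * |x - y|) ≤ 2 * ρ := h3.trans h2
    have h5 : 2 * |x - y| ≤ Real.pi * ρ := by
      have h6 : 2 / Real.pi * (2 * |x - y|) * Real.pi = 2 * (2 * |x - y|) := by
        field_simp
      nlinarith
    have h7 : Real.pi ≤ 3.15 := Real.pi_lt_d2.le
    nlinarith
  have hsub : {θ | |Real.sin (2 * θ - α)| ≤ ρ} ∩ Icc 0 (2 * Real.pi) ⊆
      ⋃ k ∈ Finset.range 8, ({θ | |Real.sin (2 * θ - α)| ≤ ρ} ∩
        Icc ((k : ℕ) * (Real.pi / 4)) (((k : ℕ) + 1) * (Real.pi / 4))) := by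
    rintro θ ⟨h1, h2, h3⟩
    rw [mem_iUnion₂]
    by_cases h8 : θ = 2 * Real.pi
    · refine ⟨7, by simp, h1, ?_, ?_⟩ <;> rw [h8] <;> push_cast <;> linarith
    · have h4 : θ < 2 * Real.pi := lt_of_le_of_ne h3 h8
      have h5 : 0 ≤ θ / (Real.pi / 4) := by positivity
      refine ⟨⌊θ / (Real.pi / 4)⌋₊, ?_, h1, ?_, ?_⟩
      · rw [Finset.mem_range, Nat.floor_lt h5, div_lt_iff₀ (by positivity)]
        push_cast
        linarith
      · have := Nat.floor_le h5
        rwa [le_div_iff₀ (by positivity)] at this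
      · have := (Nat.lt_floor_add_one (θ / (Real.pi / 4))).le
        rwa [div_le_iff₀ (by positivity)] at this
  refine (measure_mono hsub).trans ((measure_biUnion_finset_le _ _).trans ?_)
  have hb : ∀ k ∈ Finset.range 8, volume ({θ | |Real.sin (2 * θ - α)| ≤ ρ} ∩
        Icc ((k : ℕ) * (Real.pi / 4)) (((k : ℕ) + 1) * (Real.pi / 4))) ≤
      ENNReal.ofReal (13 / 8 * ρ) := by
    intro k _
    refine vol_le _ _ ?_
    rintro x ⟨hx, hx1, hx2⟩ y ⟨hy, hy1, hy2⟩
    refine key x y hx hy ?_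
    rw [abs_le]
    constructor <;> linarith
  refine (Finset.sum_le_sum hb).trans ?_
  rw [Finset.sum_const, Finset.card_range, ← ENNReal.ofReal_nsmul]
  apply ENNReal.ofReal_le_ofReal
  simp
  linarith

end Pool.Agent.H21.DW
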