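import Pool.Agent.H21.DW.Ang

/-!
# The local Mellin transform (row ML)
-/

set_option autoImplicit false

open MeasureTheory Set Filter Complex
open scoped ENNReal

namespace Pool.Agent.H21.DW

open Pool.Agent.H29.DW

/-- The integrand of the local Mellin transform. -/
noncomputable def FF (r : Bool) (c : ℂ) (H : ℝ) (k : ℤ) (t y θ : ℝ) : ℂ :=
  aq r θ ^ (-k) * cexp ((dg r * t * y / 2 : ℝ) * I) *
    tw1 c H (fun x => (b0 x : ℂ)) (((Real.exp (y / 2) : ℝ) : ℂ) * aq r θ)

theorem b0_zero (x : ℂ) (h : 1 / 16 ≤ ‖x‖) : b0 x = 0 := by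
  apply b0.zero_of_le_dist
  rw [dist_zero_right]
  exact h

theorem b0_one (x : ℂ) (h : ‖x‖ ≤ 1 / 32) : b0 x = 1 := by
  apply b0.one_of_mem_closedBall
  rw [mem_closedBall_zero_iff]
  exact h

theorem measurable_aq (r : Bool) : Measurable (aq r) := by
  cases r
  · have : aq false = fun θ : ℝ => cexp (θ * I) := by
      funext θ; simp [aq]
    rw [this]
    exact (by fun_prop : Continuous fun θ : ℝ => cexp (θ * I)).measurable
  · have : aq true = fun θ : ℝ => open scoped Classical in
        (if θ < Real.pi then (1 : ℂ) else -1) := by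
      funext θ; simp [aq]
    rw [this]
    exact Measurable.ite measurableSet_Iio measurable_const measurable_const

theorem continuous_tw (c : ℂ) (H : ℝ) : Continuous (tw1 c H (fun x => (b0 x : ℂ))) := by
  unfold tw1 chp
  refine Continuous.mul (by fun_prop) ?_
  exact Complex.continuous_ofReal.comp (b0.continuous.comp (by fun_prop))

theorem measurable_FF (r : Bool) (c : ℂ) (H : ℝ) (k : ℤ) (t : ℝ) :
    Measurable (fun q : ℝ × ℝ => FF r c H k t q.1 q.2) := by
  unfold FF
  have h1 : Measurable (fun q : ℝ × ℝ => aq r q.2) := (measurable_aq r).comp measurable_snd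
  refine ((h1.pow_const (-k)).mul ?_).mul ?_
  · exact (by fun_prop : Continuous fun q : ℝ × ℝ =>
      cexp ((dg r * t * q.1 / 2 : ℝ) * I)).measurable
  · refine (continuous_tw c H).measurable.comp (Measurable.mul ?_ h1)
    exact (by fun_prop : Continuous fun q : ℝ × ℝ => ((Real.exp (q.1 / 2) : ℝ) : ℂ)).measurable

theorem norm_FF_le (r : Bool) (c : ℂ) (H : ℝ) (k : ℤ) (t y θ : ℝ) : ‖FF r c H k t y θ‖ ≤ 1 := by
  unfold FF
  rw [norm_mul, norm_mul, norm_tw1, norm_zpow, norm_aq, one_zpow, one_mul,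
    Complex.norm_exp_ofReal_mul_I, one_mul, Complex.norm_real, Real.norm_of_nonneg b0.nonneg]
  exact b0.le_one

/-- The phase. -/
theorem phase (r : Bool) (c : ℂ) (k : ℤ) (t y θ : ℝ)
    (hc : c = if r then (t : ℂ) else ((2 * t : ℝ) : ℂ) + (k : ℂ) * I)
    (hw : ‖((Real.exp (y / 2) : ℝ) : ℂ) * aq r θ - 1‖ ≤ 1 / 16) :
    aq r θ ^ (-k) * cexp ((dg r * t * y / 2 : ℝ) * I) =
      cexp (((c * Complex.log (((Real.exp (y / 2) : ℝ) : ℂ) * aq r θ)).re : ℝ) * I) := by
  have he := Real.exp_pos (y / 2)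
  cases r
  · set w : ℂ := ((Real.exp (y / 2) : ℝ) : ℂ) * aq false θ with hwd
    have hn : ‖w‖ = Real.exp (y / 2) := by
      rw [hwd, norm_mul, norm_aq, mul_one, Complex.norm_real, Real.norm_of_nonneg he.le]
    have h1 : (Complex.log w).re = y / 2 := by
      rw [Complex.log_re, hn, Real.log_exp]
    have h2 : aq false θ = cexp ((Complex.log w).im * I) := by
      have h3 := Complex.norm_mul_exp_arg_mul_I w
      rw [hn] at h3
      have h4 : ((Real.exp (y / 2) : ℝ) : ℂ) ≠ 0 := by
        exact_mod_cast he.ne'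
      rw [Complex.log_im]
      apply mul_left_cancel₀ h4
      rw [h3]
    have h5 : (c * Complex.log w).re = t * y - k * (Complex.log w).im := by
      rw [hc]
      simp only [Bool.false_eq_true, if_false]
      rw [Complex.mul_re, h1]
      simp
      ring
    have h6 : (dg false : ℝ) = 2 := by simp [dg]
    rw [h5, h2, ← Complex.exp_int_mul, ← Complex.exp_add, h6]
    congr 1
    push_cast
    ring
  · have haq : aq true θ = 1 := by
      by_contra h
      have h1 : aq true θ = -1 := by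
        unfold aq at h ⊢
        simp only [if_true] at h ⊢
        split_ifs at h ⊢ with h2
        · exact absurd rfl h
        · rfl
      rw [h1, mul_neg, mul_one] at hw
      have h3 : ‖-((Real.exp (y / 2) : ℝ) : ℂ) - 1‖ = Real.exp (y / 2) + 1 := by
        have : -((Real.exp (y / 2) : ℝ) : ℂ) - 1 = ((-(Real.exp (y / 2) + 1) : ℝ) : ℂ) := by
          push_cast; ring
        rw [this, Complex.norm_real, Real.norm_eq_abs, abs_neg, abs_of_pos (by linarith)]
      rw [h3] at hw
      linarith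
    rw [haq, one_zpow, one_mul, mul_one, ← Complex.ofReal_log he.le, Real.log_exp, hc]
    simp [dg]
    ring_nf

/-- The real part of the integrand. -/
theorem re_FF (r : Bool) (c : ℂ) (H : ℝ) (hP : Par r c H) (k : ℤ) (t : ℝ)
    (hc : c = if r then (t : ℂ) else ((2 * t : ℝ) : ℂ) + (k : ℂ) * I) (y θ : ℝ) :
    1 / 2 * b0 (H * (((Real.exp (y / 2) : ℝ) : ℂ) * aq r θ - 1)) ≤ (FF r c H k t y θ).re := by
  set w : ℂ := ((Real.exp (y / 2) : ℝ) : ℂ) * aq r θ with hwd
  have hH := hP.one_le
  have hH0 : 0 < H := by linarith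
  by_cases hw : H * ‖w - 1‖ ≤ 1 / 16
  · have hw1 : ‖w - 1‖ ≤ 1 / 16 := by
      have := norm_nonneg (w - 1)
      nlinarith
    have hph := phase r c k t y θ hc hw1
    set z : ℂ := w - 1 with hz
    have hlog : ‖Complex.log w - (z - z ^ 2 / 2)‖ ≤ ‖z‖ ^ 3 := by
      have h1 := Complex.norm_log_sub_logTaylor_le 2 (z := z) (by linarith)
      have h2 : Complex.logTaylor (2 + 1) z = z - z ^ 2 / 2 := by
        simp [Complex.logTaylor, Finset.sum_range_succ]
        ring
      have h3 : 1 + z = w := by rw [hz]; ring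
      rw [h2, h3] at h1
      refine h1.trans ?_
      have h4 : (1 - ‖z‖)⁻¹ ≤ 3 := by
        rw [inv_le_comm₀ (by linarith) (by norm_num)]
        linarith
      have h5 : 0 ≤ ‖z‖ ^ 3 := by positivity
      norm_num
      nlinarith
    have hcn : ‖c‖ ≤ H ^ 3 := by rw [hP.cube]; exact le_max_right _ _
    have hφ : |(c * (Complex.log w - (z - z ^ 2 / 2))).re| ≤ 1 := by
      refine (Complex.abs_re_le_norm _).trans ?_
      rw [norm_mul]
      calc ‖c‖ * ‖Complex.log w - (z - z ^ 2 / 2)‖ ≤ H ^ 3 * ‖z‖ ^ 3 :=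
            mul_le_mul hcn hlog (norm_nonneg _) (by positivity)
        _ = (H * ‖z‖) ^ 3 := by ring
        _ ≤ (1 / 16) ^ 3 := pow_le_pow_left₀ (by positivity) hw 3
        _ ≤ 1 := by norm_num
    rw [← hwd] at hph
    have hF : FF r c H k t y θ =
        cexp (((c * (Complex.log w - (z - z ^ 2 / 2))).re : ℝ) * I) * (b0 (H * z) : ℂ) := by
      have h1 : FF r c H k t y θ = aq r θ ^ (-k) * cexp ((dg r * t * y / 2 : ℝ) * I) *
          (cexp (-((c * (z - z ^ 2 / 2)).re : ℝ) * I) * (b0 (H * z) : ℂ)) := rfl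
      have h2 : (c * (Complex.log w - (z - z ^ 2 / 2))).re =
          (c * Complex.log w).re - (c * (z - z ^ 2 / 2)).re := by
        rw [mul_sub, Complex.sub_re]
      rw [h1, hph, ← mul_assoc, ← Complex.exp_add, h2]
      generalize (c * Complex.log w).re = u1
      generalize (c * (z - z ^ 2 / 2)).re = u2
      congr 2
      push_cast
      ring
    rw [hF, Complex.re_mul_ofReal, Complex.exp_ofReal_mul_I_re]
    have hcos : 1 / 2 ≤ Real.cos ((c * (Complex.log w - (z - z ^ 2 / 2))).re) := by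
      have h1 := Real.one_sub_sq_div_two_le_cos (x := (c * (Complex.log w - (z - z ^ 2 / 2))).re)
      have h2 : ((c * (Complex.log w - (z - z ^ 2 / 2))).re) ^ 2 ≤ 1 := by
        rw [← sq_abs]
        exact pow_le_one₀ (abs_nonneg _) hφ
      linarith
    exact mul_le_mul_of_nonneg_right hcos b0.nonneg
  · push Not at hw
    have h0 : b0 (H * (w - 1)) = 0 := by
      apply b0_zero
      rw [norm_mul, Complex.norm_real, Real.norm_of_nonneg hH0.le]
      exact hw.le
    have hF : FF r c H k t y θ = 0 := by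
      have h1 : FF r c H k t y θ = aq r θ ^ (-k) * cexp ((dg r * t * y / 2 : ℝ) * I) *
          (chp c w * (b0 (H * (w - 1)) : ℂ)) := rfl
      rw [h1, h0]
      simp
    rw [h0, hF]
    simp

/-- ML: the local Mellin transform. -/
theorem pf_ML : V_ML := by
  have hpi := Real.pi_pos
  have hpi3 := Real.pi_gt_three
  refine ⟨1 / 8192, by norm_num, ?_⟩
  intro r c H hP k t hc
  have hH := hP.one_le
  have hH0 : 0 < H := by linarith
  set μ : Measure ℝ := volume.restrict (Icc (0 : ℝ) (2 * Real.pi)) with hμ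
  have hmeas := measurable_FF r c H k t
  have hμf : IsFiniteMeasure μ := by
    rw [hμ]; infer_instance
  have hin : ∀ y : ℝ, Integrable (fun θ => FF r c H k t y θ) μ := by
    intro y
    refine Integrable.mono' (integrable_const (1 : ℝ)) ?_ (Eventually.of_forall fun θ => norm_FF_le r c H k t y θ)
    exact (hmeas.comp (measurable_const.prodMk measurable_id)).aestronglyMeasurable
  have hGm : StronglyMeasurable (fun y : ℝ => ∫ θ, FF r c H k t y θ ∂μ) :=
    hmeas.stronglyMeasurable.integral_prod_right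
  have hGz : ∀ y : ℝ, y ∉ Icc (-1 : ℝ) 1 → ∫ θ, FF r c H k t y θ ∂μ = 0 := by
    intro y hy
    have : ∀ θ, FF r c H k t y θ = 0 := by
      intro θ
      have h0 : b0 (H * (((Real.exp (y / 2) : ℝ) : ℂ) * aq r θ - 1)) = 0 := by
        apply b0_zero
        rw [norm_mul, Complex.norm_real, Real.norm_of_nonneg hH0.le]
        have h1 := abs_norm_sub_norm_le (((Real.exp (y / 2) : ℝ) : ℂ) * aq r θ) 1
        rw [norm_mul, norm_aq, mul_one, Complex.norm_real,
          Real.norm_of_nonneg (Real.exp_pos _).le, norm_one] at h1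
        have h2 : (1 : ℝ) / 16 ≤ |Real.exp (y / 2) - 1| := by
          rw [mem_Icc, not_and_or] at hy
          rcases hy with hy | hy
          · push Not at hy
            have h3 : Real.exp (y / 2) ≤ Real.exp (-(1 / 2)) := Real.exp_le_exp.mpr (by linarith)
            have h5 : Real.exp (-(1 / 2 : ℝ)) * Real.exp (-(1 / 2 : ℝ)) = Real.exp (-1) := by
              rw [← Real.exp_add]; norm_num
            have h6 := Real.exp_neg_one_lt_d9
            have h7 := Real.exp_pos (-(1 / 2 : ℝ))
            rw [abs_sub_comm]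
            refine le_trans ?_ (le_abs_self _)
            nlinarith
          · push Not at hy
            have h3 : y / 2 + 1 ≤ Real.exp (y / 2) := Real.add_one_le_exp _
            refine le_trans ?_ (le_abs_self _)
            linarith
        have h4 := h2.trans h1
        nlinarith [norm_nonneg (((Real.exp (y / 2) : ℝ) : ℂ) * aq r θ - 1)]
      have h1 : FF r c H k t y θ = aq r θ ^ (-k) * cexp ((dg r * t * y / 2 : ℝ) * I) *
          (chp c (((Real.exp (y / 2) : ℝ) : ℂ) * aq r θ) *
            (b0 (H * (((Real.exp (y / 2) : ℝ) : ℂ) * aq r θ - 1)) : ℂ)) := rfl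
      rw [h1, h0]
      simp
    simp [this]
  have hGi : Integrable (fun y : ℝ => ∫ θ, FF r c H k t y θ ∂μ) := by
    have h1 : IntegrableOn (fun y : ℝ => ∫ θ, FF r c H k t y θ ∂μ) (Icc (-1 : ℝ) 1) := by
      refine Measure.integrableOn_of_bounded (M := μ.real univ) (by simp) hGm.aestronglyMeasurable ?_
      refine Eventually.of_forall fun y => ?_
      refine (norm_integral_le_integral_norm _).trans ?_
      have : ∫ θ, ‖FF r c H k t y θ‖ ∂μ ≤ ∫ _θ, (1 : ℝ) ∂μ :=
        integral_mono (hin y).norm (integrable_const _) fun θ => norm_FF_le r c H k t y θ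
      refine this.trans ?_
      simp
    rw [← integrable_indicator_iff measurableSet_Icc] at h1
    refine h1.congr (Eventually.of_forall fun y => ?_)
    by_cases hy : y ∈ Icc (-1 : ℝ) 1
    · rw [Set.indicator_of_mem hy]
    · rw [Set.indicator_of_notMem hy]
      exact (hGz y hy).symm
  refine ⟨hGi, ?_⟩
  change 1 / 8192 * H ^ (-(dg r : ℝ)) ≤ ‖∫ y : ℝ, ∫ θ, FF r c H k t y θ ∂μ‖
  -- real parts
  have hreI : ∀ y : ℝ, (∫ θ, FF r c H k t y θ ∂μ).re = ∫ θ, (FF r c H k t y θ).re ∂μ := by
    intro y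
    exact (Complex.reCLM.integral_comp_comm (hin y)).symm
  have hre : (∫ y : ℝ, ∫ θ, FF r c H k t y θ ∂μ).re = ∫ y : ℝ, ∫ θ, (FF r c H k t y θ).re ∂μ := by
    have := (Complex.reCLM.integral_comp_comm hGi).symm
    refine this.trans ?_
    congr 1
    funext y
    exact hreI y
  have hFnn : ∀ y θ, 0 ≤ (FF r c H k t y θ).re := fun y θ =>
    le_trans (mul_nonneg (by norm_num) b0.nonneg) (re_FF r c H hP k t hc y θ)
  have hRi : Integrable (fun y : ℝ => ∫ θ, (FF r c H k t y θ).re ∂μ) := by
    have := hGi.re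
    refine this.congr (Eventually.of_forall fun y => ?_)
    exact hreI y
  -- the small box
  set κ : ℝ := 1 / 128 * H ^ (1 - (dg r : ℝ)) with hκ
  have hκ0 : 0 < κ := by
    have := Real.rpow_pos_of_pos hH0 (1 - (dg r : ℝ))
    positivity
  have hκ1 : κ ≤ 1 / 128 := by
    have : H ^ (1 - (dg r : ℝ)) ≤ 1 := by
      apply Real.rpow_le_one_of_one_le_of_nonpos hH
      cases r <;> simp [dg]
    linarith
  set η : ℝ := 1 / (64 * H) with hη
  have hη0 : 0 < η := by positivity
  have hbox : ∀ y ∈ Icc (-η) η, ∀ θ ∈ Icc 0 κ, 1 / 2 ≤ (FF r c H k t y θ).re := by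
    intro y hy θ hθ
    refine le_trans ?_ (re_FF r c H hP k t hc y θ)
    rw [b0_one]
    · norm_num
    rw [norm_mul, Complex.norm_real, Real.norm_of_nonneg hH0.le]
    have hη2 : H * η = 1 / 64 := by rw [hη]; field_simp
    have hη1 : η ≤ 1 / 64 := by nlinarith
    have hyη : |y| ≤ η := abs_le.mpr hy
    cases r
    · have hκH : H * κ = 1 / 128 := by
        have h1 : (1 - (dg false : ℝ)) = -1 := by simp [dg]; norm_num
        rw [hκ, h1, Real.rpow_neg_one]
        field_simp
      have e : ((Real.exp (y / 2) : ℝ) : ℂ) * aq false θ = cexp ((y / 2 : ℝ) + θ * I) := by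
        rw [Complex.exp_add, Complex.ofReal_exp]
        simp [aq]
      have hzn : ‖(((y / 2 : ℝ) : ℂ) + θ * I)‖ ≤ |y| / 2 + θ := by
        refine (norm_add_le _ _).trans ?_
        rw [Complex.norm_real, norm_mul, Complex.norm_real, Complex.norm_I, mul_one,
          Real.norm_eq_abs, Real.norm_of_nonneg hθ.1, abs_div, abs_two]
      have h1 := Complex.norm_exp_sub_one_le (x := ((y / 2 : ℝ) : ℂ) + θ * I) (by
        refine hzn.trans ?_
        have := hθ.2
        linarith)
      rw [e]
      have h2 := mul_le_mul_of_nonneg_left (h1.trans (mul_le_mul_of_nonneg_left hzn (by norm_num : (0:ℝ) ≤ 2))) hH0.le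
      refine h2.trans ?_
      have h3 : H * |y| ≤ 1 / 64 := by rw [← hη2]; exact mul_le_mul_of_nonneg_left hyη hH0.le
      have h4 : H * θ ≤ 1 / 128 := by rw [← hκH]; exact mul_le_mul_of_nonneg_left hθ.2 hH0.le
      nlinarith
    · have e : ((Real.exp (y / 2) : ℝ) : ℂ) * aq true θ = cexp ((y / 2 : ℝ)) := by
        have h1 : θ < Real.pi := by
          have := hθ.2
          linarith
        rw [Complex.ofReal_exp]
        simp [aq, h1]
      have hzn : ‖((y / 2 : ℝ) : ℂ)‖ = |y| / 2 := by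
        rw [Complex.norm_real, Real.norm_eq_abs, abs_div, abs_two]
      have h1 := Complex.norm_exp_sub_one_le (x := ((y / 2 : ℝ) : ℂ)) (by
        rw [hzn]; linarith)
      rw [e]
      rw [hzn] at h1
      have h3 : H * |y| ≤ 1 / 64 := by rw [← hη2]; exact mul_le_mul_of_nonneg_left hyη hH0.le
      have h2 := mul_le_mul_of_nonneg_left h1 hH0.le
      refine h2.trans ?_
      nlinarith
  have hinner : ∀ y ∈ Icc (-η) η, κ / 2 ≤ ∫ θ, (FF r c H k t y θ).re ∂μ := by
    intro y hy
    have h1 : ∫ θ in Icc 0 κ, (FF r c H k t y θ).re ≤ ∫ θ, (FF r c H k t y θ).re ∂μ := by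
      rw [hμ]
      refine setIntegral_mono_set (hin y).re (Eventually.of_forall fun θ => hFnn y θ) ?_
      exact (Icc_subset_Icc_right (by linarith)).eventuallyLE
    have h2 : ∫ _θ in Icc 0 κ, (1 / 2 : ℝ) ≤ ∫ θ in Icc 0 κ, (FF r c H k t y θ).re := by
      refine setIntegral_mono_on (by simp) ?_ measurableSet_Icc fun θ hθ => hbox y hy θ hθ
      exact (hin y).re.mono_measure (by
        rw [hμ]; exact Measure.restrict_mono (Icc_subset_Icc_right (by linarith)) le_rfl)
    refine le_trans (le_of_eq ?_) (h2.trans h1)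
    rw [setIntegral_const]
    simp [Real.volume_real_Icc, hκ0.le]
    ring
  have hout : ∫ _y in Icc (-η) η, (κ / 2 : ℝ) ≤ ∫ y : ℝ, ∫ θ, (FF r c H k t y θ).re ∂μ := by
    have h1 : ∫ y in Icc (-η) η, ∫ θ, (FF r c H k t y θ).re ∂μ ≤
        ∫ y : ℝ, ∫ θ, (FF r c H k t y θ).re ∂μ :=
      setIntegral_le_integral hRi (Eventually.of_forall fun y => integral_nonneg fun θ => hFnn y θ)
    refine le_trans ?_ h1
    exact setIntegral_mono_on (by simp) hRi.integrableOn measurableSet_Icc hinner
  have hfin : 1 / 8192 * H ^ (-(dg r : ℝ)) ≤ ∫ _y in Icc (-η) η, (κ / 2 : ℝ) := by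
    rw [setIntegral_const, Real.volume_real_Icc, hκ, hη]
    have h2 : max (1 / (64 * H) - -(1 / (64 * H))) 0 = 1 / (32 * H) := by
      rw [max_eq_left (by rw [hη] at hη0; linarith)]
      field_simp
      norm_num
    rw [h2]
    have h3 : H ^ (1 - (dg r : ℝ)) = H * H ^ (-(dg r : ℝ)) := by
      rw [sub_eq_add_neg, Real.rpow_add hH0, Real.rpow_one]
    rw [h3, smul_eq_mul]
    refine le_of_eq ?_
    field_simp
    norm_num
  calc 1 / 8192 * H ^ (-(dg r : ℝ)) ≤ ∫ _y in Icc (-η) η, (κ / 2 : ℝ) := hfin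
    _ ≤ ∫ y : ℝ, ∫ θ, (FF r c H k t y θ).re ∂μ := hout
    _ = (∫ y : ℝ, ∫ θ, FF r c H k t y θ ∂μ).re := hre.symm
    _ ≤ _ := Complex.re_le_norm _

end Pool.Agent.H21.DW
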